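import Pool.Agent.Q255.EP.Stm2
import Pool.Agent.Q68.EP.Law

/-!
# Project EP (helper255), S_LAWE: independent biased signs, entropy and expectations of products
-/

set_option autoImplicit false

namespace Pool.Agent.Q96.EP

open Filter Topology MeasureTheory ProbabilityTheory Pool.Agent.Q255.IC Pool.Agent.Q255.IR
open Pool.Agent.Q190.IR.Tilt
open scoped ENNReal

theorem sg_meas (k : ℕ) : Measurable fun ω : ℕ → Bool => sg ω k :=
  (measurable_of_finite (fun x : Bool => if x then (1 : ℝ) else -1)).comp (measurable_pi_apply k)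

theorem sg_indep {u : ℕ → ℝ} (h : ∀ k, |u k| ≤ 1) :
    iIndepFun (fun k (ω : ℕ → Bool) => sg ω k) (Measure.infinitePi (fun k : ℕ => one (u k))) := by
  have := fun k => one_prob (h k)
  exact iIndepFun_infinitePi (P := fun k : ℕ => one (u k))
    (X := fun _ : ℕ => fun x : Bool => if x then (1 : ℝ) else -1) (fun _ => measurable_of_finite _)

theorem sg_mean {u : ℕ → ℝ} (h : ∀ k, |u k| ≤ 1) (k : ℕ) :
    ∫ ω, sg ω k ∂(Measure.infinitePi (fun k : ℕ => one (u k))) = -u k := by
  have := fun k => one_prob (h k)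
  have h' := abs_le.1 (h k)
  obtain ⟨P, hP⟩ : ∃ P, P = Measure.infinitePi (fun k : ℕ => one (u k)) := ⟨_, rfl⟩
  have hPp : IsProbabilityMeasure P := by rw [hP]; infer_instance
  rw [← hP]
  have e1 : ∫ ω, sg ω k ∂P = ∫ x, (if x then (1 : ℝ) else -1) ∂(P.map (fun ω : ℕ → Bool => ω k)) := by
    rw [integral_map (measurable_pi_apply k).aemeasurable
      (measurable_of_finite _).aestronglyMeasurable]
    rfl
  rw [e1, hP, Measure.infinitePi_map_eval]
  unfold one
  rw [integral_add_measure, integral_smul_measure, integral_smul_measure, integral_dirac,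
    integral_dirac, ENNReal.toReal_ofReal (by linarith [h'.1, h'.2]),
    ENNReal.toReal_ofReal (by linarith [h'.1, h'.2])]
  · simp; ring
  · exact (Integrable.of_finite (μ := Measure.dirac true)).smul_measure ENNReal.ofReal_ne_top
  · exact (Integrable.of_finite (μ := Measure.dirac false)).smul_measure ENNReal.ofReal_ne_top

theorem lawe : Pool.Agent.Q255.EP.S_LAWE := by
  intro d hd
  obtain ⟨u, hu⟩ : ∃ u : ℕ → ℝ, ∀ k, u k = -d k := ⟨fun k => -d k, fun _ => rfl⟩
  have hu1 : ∀ k, |u k| ≤ 1 := fun k => by rw [hu, abs_neg]; exact hd k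
  have := fun k => one_prob (hu1 k)
  refine ⟨Measure.infinitePi (fun k : ℕ => one (u k)), inferInstance, ?_, ?_⟩
  · intro n
    unfold D entropy
    have e1 : ∑ s : Fin n → Bool, Real.negMulLog ((Measure.infinitePi (fun k : ℕ => one (u k))).real
        {ω | ∀ k : Fin n, ω k = s k}) = ∑ k : Fin n, Real.binEntropy ((1 + u k) / 2) := by
      rw [← ent_wgt n (fun k : Fin n => u k)]
      exact Finset.sum_congr rfl (fun s _ => by rw [law hu1])
    rw [e1]
    have e2 : (n : ℝ) * Real.log 2 = ∑ _k : Fin n, Real.log 2 := by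
      rw [Finset.sum_const, Finset.card_univ, Fintype.card_fin, nsmul_eq_mul]
    rw [e2, ← Finset.sum_sub_distrib]
    have hfin : ∑ k : Fin n, (Real.log 2 - Real.binEntropy ((1 + u (k : ℕ)) / 2)) ≤
        ∑ k : Fin n, d (k : ℕ) ^ 2 := Finset.sum_le_sum fun k _ => by
      have := Pool.Agent.Q68.EP.binEnt2 (hu1 (k : ℕ))
      rwa [hu, neg_sq, ← hu] at this
    refine hfin.trans (le_of_eq ?_)
    exact Fin.sum_univ_eq_sum_range (fun k => d k ^ 2) n
  · intro s
    have h1 : iIndepFun (fun (k : s) (ω : ℕ → Bool) => sg ω k)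
        (Measure.infinitePi (fun k : ℕ => one (u k))) :=
      (sg_indep hu1).precomp Subtype.val_injective
    have h2 := h1.integral_fun_prod_eq_prod_integral fun k => (sg_meas k).aestronglyMeasurable
    calc ∫ ω, ∏ k ∈ s, sg ω k ∂(Measure.infinitePi (fun k : ℕ => one (u k)))
        = ∫ ω, ∏ k : s, sg ω k ∂(Measure.infinitePi (fun k : ℕ => one (u k))) := by
          congr 1
          funext ω
          exact (Finset.prod_coe_sort s fun k => sg ω k).symm
      _ = ∏ k : s, ∫ ω, sg ω k ∂(Measure.infinitePi (fun k : ℕ => one (u k))) := h2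
      _ = ∏ k : s, d k := Finset.prod_congr rfl fun k _ => by
          rw [sg_mean hu1, hu, neg_neg]
      _ = ∏ k ∈ s, d k := Finset.prod_coe_sort s d

end Pool.Agent.Q96.EP
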